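import Mathlib
import Pool.Agent.H55.KR

/-! The countable power of the Arens space is not a `k_ℝ`-space. -/

namespace Pool.Agent.Results.MP_d55beb_gt.Arens

open Set Filter Topology Pool.Agent.H55.KR

/-- the points of the Arens space -/
inductive S2 : Type
  | inf : S2
  | mid (n : ℕ) : S2
  | pt (n m : ℕ) : S2

/-- the topology of the Arens space -/
instance : TopologicalSpace S2 where
  IsOpen U := (∀ n, S2.mid n ∈ U → ∃ k, ∀ m, k ≤ m → S2.pt n m ∈ U) ∧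
    (S2.inf ∈ U → ∃ k, ∀ n, k ≤ n → S2.mid n ∈ U)
  isOpen_univ := ⟨fun _ _ => ⟨0, fun _ _ => trivial⟩, fun _ => ⟨0, fun _ _ => trivial⟩⟩
  isOpen_inter U V hU hV := by
    refine ⟨fun n h => ?_, fun h => ?_⟩
    · obtain ⟨k, hk⟩ := hU.1 n h.1
      obtain ⟨l, hl⟩ := hV.1 n h.2
      exact ⟨max k l, fun m hm => ⟨hk m (le_of_max_le_left hm), hl m (le_of_max_le_right hm)⟩⟩
    · obtain ⟨k, hk⟩ := hU.2 h.1
      obtain ⟨l, hl⟩ := hV.2 h.2
      exact ⟨max k l, fun m hm => ⟨hk m (le_of_max_le_left hm), hl m (le_of_max_le_right hm)⟩⟩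
  isOpen_sUnion s hs := by
    constructor
    · rintro n ⟨U, hU, h⟩
      obtain ⟨k, hk⟩ := (hs U hU).1 n h
      exact ⟨k, fun m hm => ⟨U, hU, hk m hm⟩⟩
    · rintro ⟨U, hU, h⟩
      obtain ⟨k, hk⟩ := (hs U hU).2 h
      exact ⟨k, fun m hm => ⟨U, hU, hk m hm⟩⟩

theorem result : ¬ IsKR (ℕ → S2) := by
  have h1 : ∀ n m, IsOpen ({S2.pt n m} : Set S2) := fun n m =>
    ⟨fun _ h => (by cases h), fun h => by cases h⟩
  have h2 : ∀ (g : ℕ → ℕ) (S : Set ℕ), IsClosed ((fun n => S2.pt n (g n)) '' S) := fun g S =>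
    ⟨⟨fun n _ => ⟨g n + 1, by
      rintro m hm ⟨k, -, h⟩
      cases h
      simp at hm⟩, fun _ => ⟨0, by
      rintro m - ⟨k, -, h⟩
      cases h⟩⟩⟩
  refine not_KR S2.pt S2.inf (fun n m => ⟨?_, h1 n m⟩) (fun n m h => by cases h)
    (fun U hU N => ?_) (fin_col _ h1 (fun _ _ _ _ h => by cases h; rfl) h2)
  · simpa using h2 (fun _ => m) {n}
  · obtain ⟨V, h3, h4, h5⟩ := mem_nhds_iff.1 hU
    obtain ⟨k, hk⟩ := h4.2 h5
    obtain ⟨l, hl⟩ := h4.1 _ (hk (max k N) (le_max_left _ _))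
    exact ⟨max k N, le_max_right _ _, l, h3 (hl _ le_rfl)⟩

end Pool.Agent.Results.MP_d55beb_gt.Arens
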