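import Mathlib
import Pool.Agent.H55.KR

/-! The countable power of the sequential fan is not a `k_ℝ`-space. -/

namespace Pool.Agent.Results.MP_d55beb_gt.Fan

open Set Filter Topology Pool.Agent.H55.KR

/-- the points of the sequential fan -/
inductive Sw : Type
  | inf : Sw
  | pt (n m : ℕ) : Sw

/-- the topology of the sequential fan -/
instance : TopologicalSpace Sw where
  IsOpen U := Sw.inf ∈ U → ∃ f : ℕ → ℕ, ∀ n m, f n ≤ m → Sw.pt n m ∈ U
  isOpen_univ _ := ⟨0, fun _ _ _ => trivial⟩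
  isOpen_inter U V hU hV h := by
    obtain ⟨f, hf⟩ := hU h.1
    obtain ⟨g, hg⟩ := hV h.2
    exact ⟨fun n => max (f n) (g n), fun n m hm =>
      ⟨hf n m (le_of_max_le_left hm), hg n m (le_of_max_le_right hm)⟩⟩
  isOpen_sUnion s hs := by
    rintro ⟨U, hU, h⟩
    obtain ⟨f, hf⟩ := hs U hU h
    exact ⟨f, fun n m hm => ⟨U, hU, hf n m hm⟩⟩

theorem result : ¬ IsKR (ℕ → Sw) := by
  have h1 : ∀ n m, IsOpen ({Sw.pt n m} : Set Sw) := fun n m h => by cases h
  have h2 : ∀ (g : ℕ → ℕ) (S : Set ℕ), IsClosed ((fun n => Sw.pt n (g n)) '' S) := fun g S =>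
    ⟨fun _ => ⟨fun n => g n + 1, by
      rintro n m hm ⟨k, -, h⟩
      cases h
      simp at hm⟩⟩
  refine not_KR Sw.pt Sw.inf (fun n m => ⟨?_, h1 n m⟩) (fun n m h => by cases h)
    (fun U hU N => ?_) (fin_col _ h1 (fun _ _ _ _ h => by cases h; rfl) h2)
  · simpa using h2 (fun _ => m) {n}
  · obtain ⟨V, h3, h4, h5⟩ := mem_nhds_iff.1 hU
    obtain ⟨f, hf⟩ := h4 h5
    exact ⟨N, le_rfl, f N, h3 (hf _ _ le_rfl)⟩

end Pool.Agent.Results.MP_d55beb_gt.Fan
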